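import Pool.Agent.Q206.Gam.Johnson

/-!
# The lists of bad messages and their computability
-/

namespace Q206.Gam

open Finset Q206.Ioe

/-! ### Primitive recursiveness of the code -/

theorem primrec_bit : Primrec₂ (fun v j : ℕ => v / 2 ^ j % 2) :=
  Primrec.nat_mod.comp (Primrec.nat_div.comp Primrec.fst
    (primrec_pow.comp (Primrec.const 2) Primrec.snd)) (Primrec.const 2)

theorem primrec_ip : Primrec (fun z : (ℕ × ℕ) × ℕ => ip z.1.1 z.1.2 z.2) := by
  have h : Primrec (fun z : (ℕ × ℕ) × ℕ => Nat.rec (motive := fun _ => ℕ) 0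
      (fun M ih => ih + (z.1.2 / 2 ^ M % 2) * (z.2 / 2 ^ M % 2)) z.1.1) := by
    refine Primrec.nat_rec' (h := fun (z : (ℕ × ℕ) × ℕ) (p : ℕ × ℕ) =>
      p.2 + (z.1.2 / 2 ^ p.1 % 2) * (z.2 / 2 ^ p.1 % 2)) (Primrec.fst.comp Primrec.fst)
      (Primrec.const 0) ?_
    exact Primrec.nat_add.comp (Primrec.snd.comp Primrec.snd)
      (Primrec.nat_mul.comp
        (primrec_bit.comp (Primrec.snd.comp (Primrec.fst.comp Primrec.fst))
          (Primrec.fst.comp Primrec.snd))
        (primrec_bit.comp (Primrec.snd.comp Primrec.fst) (Primrec.fst.comp Primrec.snd)))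
  refine h.of_eq ?_
  intro z
  induction z.1.1 with
  | zero => rfl
  | succ n ih => simp only [ip]; rw [ih]

theorem primrec_evs : Primrec (fun z : (ℕ × ℕ) × ℕ => evs z.1.1 z.1.2 z.2) := by
  have h : Primrec (fun z : (ℕ × ℕ) × ℕ => Nat.rec (motive := fun _ => ℕ) 0
      (fun j ih => ih + (z.1.1 / 2 ^ j % 2) * z.1.2 ^ j) z.2) := by
    refine Primrec.nat_rec' (h := fun (z : (ℕ × ℕ) × ℕ) (p : ℕ × ℕ) =>
      p.2 + (z.1.1 / 2 ^ p.1 % 2) * z.1.2 ^ p.1) Primrec.snd (Primrec.const 0) ?_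
    exact Primrec.nat_add.comp (Primrec.snd.comp Primrec.snd)
      (Primrec.nat_mul.comp
        (primrec_bit.comp (Primrec.fst.comp (Primrec.fst.comp Primrec.fst))
          (Primrec.fst.comp Primrec.snd))
        (primrec_pow.comp (Primrec.snd.comp (Primrec.fst.comp Primrec.fst))
          (Primrec.fst.comp Primrec.snd)))
  refine h.of_eq ?_
  intro z
  induction z.2 with
  | zero => rfl
  | succ n ih => simp only [evs]; rw [ih]

theorem primrec_cb : Primrec (fun z : ((ℕ × ℕ) × ℕ) × (ℕ × ℕ) =>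
    cb z.1.1.1 z.1.1.2 z.1.2 z.2.1 z.2.2) := by
  have hq : Primrec (fun z : ((ℕ × ℕ) × ℕ) × (ℕ × ℕ) => z.1.1.1) :=
    Primrec.fst.comp (Primrec.fst.comp Primrec.fst)
  have hk : Primrec (fun z : ((ℕ × ℕ) × ℕ) × (ℕ × ℕ) => z.1.1.2) :=
    Primrec.snd.comp (Primrec.fst.comp Primrec.fst)
  have hM : Primrec (fun z : ((ℕ × ℕ) × ℕ) × (ℕ × ℕ) => z.1.2) :=
    Primrec.snd.comp Primrec.fst
  have hc : Primrec (fun z : ((ℕ × ℕ) × ℕ) × (ℕ × ℕ) => z.2.1) :=
    Primrec.fst.comp Primrec.snd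
  have hn : Primrec (fun z : ((ℕ × ℕ) × ℕ) × (ℕ × ℕ) => z.2.2) :=
    Primrec.snd.comp Primrec.snd
  have h2M : Primrec (fun z : ((ℕ × ℕ) × ℕ) × (ℕ × ℕ) => 2 ^ z.1.2) :=
    primrec_pow.comp (Primrec.const 2) hM
  have h2M1 : Primrec (fun z : ((ℕ × ℕ) × ℕ) × (ℕ × ℕ) => 2 ^ (z.1.2 + 1)) :=
    primrec_pow.comp (Primrec.const 2) (Primrec.succ.comp hM)
  have ha := Primrec.nat_mod.comp (Primrec.nat_div.comp hn h2M1) h2M
  have hv := Primrec.nat_mod.comp (primrec_evs.comp (Primrec.pair (Primrec.pair hc ha) hk)) hq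
  exact primrec_ip.comp (Primrec.pair (Primrec.pair (Primrec.succ.comp hM) hv)
    (Primrec.nat_mod.comp hn h2M1))

theorem primrec_cb' {α : Type*} [Primcodable α] {q k M c n : α → ℕ} (hq : Primrec q)
    (hk : Primrec k) (hM : Primrec M) (hc : Primrec c) (hn : Primrec n) :
    Primrec (fun a => cb (q a) (k a) (M a) (c a) (n a)) :=
  primrec_cb.comp (Primrec.pair (Primrec.pair (Primrec.pair hq hk) hM) (Primrec.pair hc hn))

/-- number of agreements of the codeword with the word of list `L` on an interval -/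
def agr (q k M c st N : ℕ) (L : List ℕ) : ℕ :=
  ((List.range N).filter
    (fun x => (cb q k M c (st + x) + L.getD (st + x) 0) % 2 = 0)).length

/-- parameters of `agr` -/
abbrev AD : Type := ((ℕ × ℕ) × (ℕ × ℕ)) × ((ℕ × ℕ) × List ℕ)

theorem primrec_agrRel : PrimrecRel (fun (x : ℕ) (z : AD) =>
    (cb z.1.1.1 z.1.1.2 z.1.2.1 z.1.2.2 (z.2.1.1 + x) + z.2.2.getD (z.2.1.1 + x) 0) % 2 = 0) := by
  have hz : Primrec (fun p : ℕ × AD => p.2) := Primrec.snd
  have hz1 : Primrec (fun p : ℕ × AD => p.2.1) := Primrec.fst.comp hz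
  have hz11 : Primrec (fun p : ℕ × AD => p.2.1.1) := Primrec.fst.comp hz1
  have hz12 : Primrec (fun p : ℕ × AD => p.2.1.2) := Primrec.snd.comp hz1
  have hz2 : Primrec (fun p : ℕ × AD => p.2.2) := Primrec.snd.comp hz
  have hz21 : Primrec (fun p : ℕ × AD => p.2.2.1) := Primrec.fst.comp hz2
  have hpos : Primrec (fun p : ℕ × AD => p.2.2.1.1 + p.1) :=
    Primrec.nat_add.comp (Primrec.fst.comp hz21) Primrec.fst
  have h1 : Primrec (fun p : ℕ × AD =>
      cb p.2.1.1.1 p.2.1.1.2 p.2.1.2.1 p.2.1.2.2 (p.2.2.1.1 + p.1)) :=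
    primrec_cb' (Primrec.fst.comp hz11) (Primrec.snd.comp hz11) (Primrec.fst.comp hz12)
      (Primrec.snd.comp hz12) hpos
  have h2 : Primrec (fun p : ℕ × AD => p.2.2.2.getD (p.2.2.1.1 + p.1) 0) :=
    (Primrec.list_getD 0).comp (Primrec.snd.comp hz2) hpos
  have h3 : Primrec (fun p : ℕ × AD => (cb p.2.1.1.1 p.2.1.1.2 p.2.1.2.1 p.2.1.2.2
      (p.2.2.1.1 + p.1) + p.2.2.2.getD (p.2.2.1.1 + p.1) 0) % 2) :=
    Primrec.nat_mod.comp (Primrec.nat_add.comp h1 h2) (Primrec.const 2)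
  exact Primrec.eq.comp h3 (Primrec.const 0)

theorem primrec_agr : Primrec (fun z : AD =>
    agr z.1.1.1 z.1.1.2 z.1.2.1 z.1.2.2 z.2.1.1 z.2.1.2 z.2.2) := by
  have h3 : Primrec (fun z : AD => List.range z.2.1.2) :=
    Primrec.list_range.comp (Primrec.snd.comp (Primrec.fst.comp Primrec.snd))
  exact Primrec.list_length.comp (primrec_agrRel.listFilter.comp h3 Primrec.id)

theorem primrec_agr' {α : Type*} [Primcodable α] {q k M c st N : α → ℕ} {L : α → List ℕ}
    (hq : Primrec q) (hk : Primrec k) (hM : Primrec M) (hc : Primrec c) (hst : Primrec st)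
    (hN : Primrec N) (hL : Primrec L) :
    Primrec (fun a => agr (q a) (k a) (M a) (c a) (st a) (N a) (L a)) :=
  primrec_agr.comp (Primrec.pair (Primrec.pair (Primrec.pair hq hk) (Primrec.pair hM hc))
    (Primrec.pair (Primrec.pair hst hN) hL))

/-! ### Parameters of window `i` -/

/-- `2 ^ (sf i)` blocks per dyadic interval -/
def sf (i : ℕ) : ℕ := (i - 4) / 3

/-- length of messages -/
def kf (i : ℕ) : ℕ := 2 ^ (i + 1) * 4 ^ 2 ^ (i + 1)

/-- `2 ^ Mf i` evaluation points -/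
def Mf (i : ℕ) : ℕ := 2 ^ (i + 2) + (i + 1) + 2 * sf i

theorem primrec_sf : Primrec sf :=
  Primrec.nat_div.comp (Primrec.nat_sub.comp Primrec.id (Primrec.const 4)) (Primrec.const 3)

theorem primrec_2pow {α : Type*} [Primcodable α] {f : α → ℕ} (hf : Primrec f) :
    Primrec (fun i => 2 ^ f i) := primrec_pow.comp (Primrec.const 2) hf

theorem primrec_addc {α : Type*} [Primcodable α] {f : α → ℕ} (hf : Primrec f) (c : ℕ) :
    Primrec (fun i => f i + c) := Primrec.nat_add.comp hf (Primrec.const c)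

theorem primrec_kf : Primrec kf :=
  Primrec.nat_mul.comp (primrec_2pow (primrec_addc Primrec.id 1))
    (primrec_pow.comp (Primrec.const 4) (primrec_2pow (primrec_addc Primrec.id 1)))

theorem primrec_Mf : Primrec Mf :=
  Primrec.nat_add.comp (Primrec.nat_add.comp (primrec_2pow (primrec_addc Primrec.id 2))
    (primrec_addc Primrec.id 1)) (Primrec.nat_mul.comp (Primrec.const 2) primrec_sf)

/-- block `a` of the dyadic interval with exponent `2 ^ (i + 4) + j`: length -/
def blen (i j : ℕ) : ℕ := 2 ^ (2 ^ (i + 4) + j - sf i)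

/-- start of the block -/
def bst (i j a : ℕ) : ℕ := 2 ^ (2 ^ (i + 4) + j) + a * blen i j

/-- the message `c` is bad on the block `(j, a)` of window `i` -/
def BadB (q i c : ℕ) (L : List ℕ) (j a : ℕ) : Prop :=
  2 * blen i j < 2 ^ sf i *
    ((2 * agr q (kf i) (Mf i) c (bst i j a) (blen i j) L - blen i j) +
      (blen i j - 2 * agr q (kf i) (Mf i) c (bst i j a) (blen i j) L))

instance (q i c : ℕ) (L : List ℕ) (j a : ℕ) : Decidable (BadB q i c L j a) := by
  unfold BadB; infer_instance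

theorem primrec_blen : Primrec₂ blen :=
  primrec_2pow (Primrec.nat_sub.comp (Primrec.nat_add.comp (primrec_2pow
    (primrec_addc Primrec.fst 4)) Primrec.snd) (primrec_sf.comp Primrec.fst))

theorem primrec_bst : Primrec (fun z : (ℕ × ℕ) × ℕ => bst z.1.1 z.1.2 z.2) :=
  Primrec.nat_add.comp (primrec_2pow (Primrec.nat_add.comp (primrec_2pow
    (primrec_addc (Primrec.fst.comp Primrec.fst) 4)) (Primrec.snd.comp Primrec.fst)))
    (Primrec.nat_mul.comp Primrec.snd (primrec_blen.comp (Primrec.fst.comp Primrec.fst)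
      (Primrec.snd.comp Primrec.fst)))

theorem primrec_badAux {α : Type*} [Primcodable α] {s l g : α → ℕ} (hs : Primrec s)
    (hl : Primrec l) (hg : Primrec g) :
    PrimrecPred (fun a => 2 * l a < 2 ^ s a * ((2 * g a - l a) + (l a - 2 * g a))) := by
  have h2g : Primrec (fun a => 2 * g a) := Primrec.nat_mul.comp (Primrec.const 2) hg
  exact Primrec.nat_lt.comp (Primrec.nat_mul.comp (Primrec.const 2) hl)
    (Primrec.nat_mul.comp (primrec_2pow hs)
      (Primrec.nat_add.comp (Primrec.nat_sub.comp h2g hl) (Primrec.nat_sub.comp hl h2g)))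

/-- data: `((q, i), L)` -/
abbrev Dat : Type := (ℕ × ℕ) × List ℕ

theorem primrec_BadB' {α : Type*} [Primcodable α] {q i c j a : α → ℕ} {L : α → List ℕ}
    (hq : Primrec q) (hi : Primrec i) (hc : Primrec c) (hL : Primrec L) (hj : Primrec j)
    (ha : Primrec a) : PrimrecPred (fun x => BadB (q x) (i x) (c x) (L x) (j x) (a x)) := by
  unfold BadB
  have hlen : Primrec (fun x => blen (i x) (j x)) := primrec_blen.comp hi hj
  have hst := primrec_bst.comp (Primrec.pair (Primrec.pair hi hj) ha)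
  have hag : Primrec (fun x => agr (q x) (kf (i x)) (Mf (i x)) (c x) (bst (i x) (j x) (a x))
      (blen (i x) (j x)) (L x)) :=
    primrec_agr' hq (primrec_kf.comp hi) (primrec_Mf.comp hi) hc hst hlen hL
  exact primrec_badAux (primrec_sf.comp hi) hlen hag

theorem primrec_BadB : PrimrecRel (fun (a : ℕ) (z : ℕ × (ℕ × Dat)) =>
    BadB z.2.2.1.1 z.2.2.1.2 z.2.1 z.2.2.2 z.1 a) := by
  have ha : Primrec (fun p : ℕ × (ℕ × (ℕ × Dat)) => p.1) := Primrec.fst
  have hj : Primrec (fun p : ℕ × (ℕ × (ℕ × Dat)) => p.2.1) := Primrec.fst.comp Primrec.snd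
  have hc : Primrec (fun p : ℕ × (ℕ × (ℕ × Dat)) => p.2.2.1) :=
    Primrec.fst.comp (Primrec.snd.comp Primrec.snd)
  have hD : Primrec (fun p : ℕ × (ℕ × (ℕ × Dat)) => p.2.2.2) :=
    Primrec.snd.comp (Primrec.snd.comp Primrec.snd)
  have hq : Primrec (fun p : ℕ × (ℕ × (ℕ × Dat)) => p.2.2.2.1.1) :=
    Primrec.fst.comp (Primrec.fst.comp hD)
  have hi : Primrec (fun p : ℕ × (ℕ × (ℕ × Dat)) => p.2.2.2.1.2) :=
    Primrec.snd.comp (Primrec.fst.comp hD)
  have hL : Primrec (fun p : ℕ × (ℕ × (ℕ × Dat)) => p.2.2.2.2) := Primrec.snd.comp hD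
  exact primrec_BadB' hq hi hc hL hj ha

/-- bad on some block of the window -/
def BadW (q i c : ℕ) (L : List ℕ) : Prop :=
  ∃ j < 2 ^ (i + 4), ∃ a < 2 ^ sf i, BadB q i c L j a

instance (q i c : ℕ) (L : List ℕ) : Decidable (BadW q i c L) := by
  unfold BadW; infer_instance

theorem primrec_BadW : PrimrecRel (fun (c : ℕ) (z : Dat) => BadW z.1.1 z.1.2 c z.2) := by
  unfold BadW
  have h1 : PrimrecRel (fun (j : ℕ) (z : ℕ × Dat) =>
      ∃ a < 2 ^ sf z.2.1.2, BadB z.2.1.1 z.2.1.2 z.1 z.2.2 j a) := by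
    have := exists_lt_rel primrec_BadB
    exact this.comp (primrec_2pow (primrec_sf.comp (Primrec.snd.comp (Primrec.fst.comp
      (Primrec.snd.comp Primrec.snd))))) Primrec.id
  have h2 := exists_lt_rel h1
  exact h2.comp (primrec_2pow (primrec_addc (Primrec.snd.comp (Primrec.fst.comp
      Primrec.snd)) 4)) Primrec.id

/-- the list of bad messages -/
def badList (q i : ℕ) (L : List ℕ) : List ℕ :=
  if 4 ≤ i then (List.range (2 ^ kf i)).filter (fun c => BadW q i c L) else []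

theorem primrec_badList : Primrec (fun z : Dat => badList z.1.1 z.1.2 z.2) := by
  unfold badList
  refine Primrec.ite (Primrec.nat_le.comp (Primrec.const 4) (Primrec.snd.comp Primrec.fst)) ?_
    (Primrec.const [])
  exact primrec_BadW.listFilter.comp (Primrec.list_range.comp (primrec_2pow (primrec_kf.comp
    (Primrec.snd.comp Primrec.fst)))) Primrec.id

end Q206.Gam
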