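import Pool.Agent.Q206.Ioe.Main

/-!
# A Reed–Solomon code concatenated with Hadamard codes
-/

namespace Q206.Gam

open Finset

/-- inner product of the `M` lowest binary digits (as a natural number) -/
def ip : ℕ → ℕ → ℕ → ℕ
  | 0, _, _ => 0
  | M + 1, v, u => ip M v u + (v / 2 ^ M % 2) * (u / 2 ^ M % 2)

theorem ip_add (M v u : ℕ) (t : ℕ) : ∀ M' ≤ M, ip M' v (2 ^ M * t + u) = ip M' v u := by
  intro M'
  induction M' with
  | zero => intro _; rfl
  | succ j ih =>
    intro hj
    simp only [ip]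
    rw [ih (by omega)]
    congr 2
    obtain ⟨k, rfl⟩ : ∃ k, M = j + (k + 1) := ⟨M - j - 1, by omega⟩
    rw [pow_add, mul_assoc, Nat.mul_add_div (by positivity), pow_succ, mul_comm (2 ^ k) 2,
      mul_assoc, Nat.mul_add_mod]

/-- sum of the products of two rows of the Hadamard matrix -/
def hsum (M v v' : ℕ) : ℤ := ∑ u ∈ range (2 ^ M), (-1 : ℤ) ^ (ip M v u + ip M v' u)

theorem hsum_succ (M v v' : ℕ) :
    hsum (M + 1) v v' = hsum M v v' * (1 + (-1) ^ (v / 2 ^ M % 2 + v' / 2 ^ M % 2)) := by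
  unfold hsum
  rw [show 2 ^ (M + 1) = 2 ^ M + 2 ^ M by rw [pow_succ]; ring, sum_range_add, mul_add, mul_one]
  congr 1
  · apply sum_congr rfl
    intro u hu
    have hu' : u / 2 ^ M = 0 := Nat.div_eq_of_lt (mem_range.1 hu)
    simp [ip, hu']
  · rw [sum_mul]
    apply sum_congr rfl
    intro u hu
    have hu' : (2 ^ M + u) / 2 ^ M = 1 := by
      rw [Nat.add_div_left _ (by positivity), Nat.div_eq_of_lt (mem_range.1 hu)]
    have h1 : ip M v (2 ^ M + u) = ip M v u := by
      have := ip_add M v u 1 M le_rfl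
      rwa [mul_one] at this
    have h2 : ip M v' (2 ^ M + u) = ip M v' u := by
      have := ip_add M v' u 1 M le_rfl
      rwa [mul_one] at this
    simp only [ip, hu', h1, h2]
    rw [← pow_add]
    congr 1
    norm_num
    ring

theorem hsum_ne {M v v' : ℕ} (h : v % 2 ^ M ≠ v' % 2 ^ M) : hsum M v v' = 0 := by
  induction M with
  | zero => exact absurd (by simp [Nat.mod_one]) h
  | succ M ih =>
    rw [hsum_succ]
    by_cases h' : v % 2 ^ M = v' % 2 ^ M
    · rw [Nat.mod_pow_succ, Nat.mod_pow_succ, h'] at h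
      have h1 : v / 2 ^ M % 2 ≠ v' / 2 ^ M % 2 := fun he => h (by rw [he])
      have h2 : v / 2 ^ M % 2 + v' / 2 ^ M % 2 = 1 := by omega
      rw [h2]
      norm_num
    · rw [ih h', zero_mul]

theorem hsum_self (M v : ℕ) : hsum M v v = 2 ^ M := by
  unfold hsum
  have : ∀ u ∈ range (2 ^ M), (-1 : ℤ) ^ (ip M v u + ip M v u) = 1 := by
    intro u _
    rw [← two_mul]
    exact Even.neg_one_pow (even_two_mul _)
  rw [sum_congr rfl this]
  simp

/-! ### Reed–Solomon -/

/-- value at `a` of the polynomial whose coefficients are the `k` lowest binary digits of `c` -/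
def evs (c a : ℕ) : ℕ → ℕ
  | 0 => 0
  | j + 1 => evs c a j + (c / 2 ^ j % 2) * a ^ j

open Polynomial in
/-- the polynomial over `ZMod q` -/
noncomputable def pol (q k c : ℕ) : (ZMod q)[X] :=
  ∑ j ∈ range k, C ((c / 2 ^ j % 2 : ℕ) : ZMod q) * X ^ j

theorem eval_pol (q k c a : ℕ) : (pol q k c).eval (a : ZMod q) = ((evs c a k : ℕ) : ZMod q) := by
  unfold pol
  rw [Polynomial.eval_finsetSum]
  induction k with
  | zero => simp [evs]
  | succ k ih =>
    rw [sum_range_succ, ih]
    simp [evs]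

theorem coeff_pol (q k c j : ℕ) (hj : j < k) :
    (pol q k c).coeff j = ((c / 2 ^ j % 2 : ℕ) : ZMod q) := by
  unfold pol
  rw [Polynomial.finsetSum_coeff]
  simp only [Polynomial.coeff_C_mul_X_pow]
  rw [sum_ite_eq]
  simp [hj]

theorem natDegree_pol_le (q k c : ℕ) : (pol q k c).natDegree ≤ k := by
  unfold pol
  apply Polynomial.natDegree_sum_le_of_forall_le
  intro j hj
  refine (Polynomial.natDegree_C_mul_X_pow_le _ _).trans ?_
  exact (mem_range.1 hj).le

theorem pol_ne {q : ℕ} (hq : q.Prime) {k c c' : ℕ} (hc : c < 2 ^ k) (hc' : c' < 2 ^ k)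
    (h : c ≠ c') : pol q k c ≠ pol q k c' := by
  intro he
  apply h
  have : Fact q.Prime := ⟨hq⟩
  have h1 : ∀ j < k, c / 2 ^ j % 2 = c' / 2 ^ j % 2 := by
    intro j hj
    have h2 := congrArg (fun p => Polynomial.coeff p j) he
    simp only [coeff_pol q k _ j hj] at h2
    have h3 := (ZMod.natCast_eq_natCast_iff' _ _ _).1 h2
    have hq2 := hq.two_le
    rw [Nat.mod_eq_of_lt (lt_of_lt_of_le (Nat.mod_lt _ (by norm_num)) hq2),
      Nat.mod_eq_of_lt (lt_of_lt_of_le (Nat.mod_lt _ (by norm_num)) hq2)] at h3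
    exact h3
  have h4 : ∀ j ≤ k, c % 2 ^ j = c' % 2 ^ j := by
    intro j
    induction j with
    | zero => intro _; simp [Nat.mod_one]
    | succ j ih =>
      intro hj
      rw [Nat.mod_pow_succ, Nat.mod_pow_succ, ih (by omega), h1 j (by omega)]
  have h5 := h4 k le_rfl
  rwa [Nat.mod_eq_of_lt hc, Nat.mod_eq_of_lt hc'] at h5

theorem card_collision {q : ℕ} (hq : q.Prime) {k c c' A : ℕ} (hc : c < 2 ^ k) (hc' : c' < 2 ^ k)
    (h : c ≠ c') (hA : A ≤ q) :
    ((range A).filter (fun a => evs c a k % q = evs c' a k % q)).card ≤ k := by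
  have : Fact q.Prime := ⟨hq⟩
  have hne : pol q k c - pol q k c' ≠ 0 := sub_ne_zero.2 (pol_ne hq hc hc' h)
  have h1 : ((range A).filter (fun a => evs c a k % q = evs c' a k % q)).card ≤
      (pol q k c - pol q k c').roots.toFinset.card := by
    apply card_le_card_of_injOn (fun a : ℕ => (a : ZMod q))
    · intro a ha
      rw [mem_coe, mem_filter] at ha
      rw [mem_coe, Multiset.mem_toFinset, Polynomial.mem_roots hne, Polynomial.IsRoot.def,
        Polynomial.eval_sub, eval_pol, eval_pol, sub_eq_zero]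
      exact (ZMod.natCast_eq_natCast_iff' _ _ _).2 ha.2
    · intro a ha b hb hab
      rw [mem_coe, mem_filter, mem_range] at ha hb
      have h2 := (ZMod.natCast_eq_natCast_iff' _ _ _).1 hab
      rwa [Nat.mod_eq_of_lt (by omega), Nat.mod_eq_of_lt (by omega)] at h2
  have h2 := Multiset.toFinset_card_le (pol q k c - pol q k c').roots
  have h3 := Polynomial.card_roots' (pol q k c - pol q k c')
  have h4 := Polynomial.natDegree_sub_le (pol q k c) (pol q k c')
  have h5 := natDegree_pol_le q k c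
  have h6 := natDegree_pol_le q k c'
  have h7 : max (pol q k c).natDegree (pol q k c').natDegree ≤ k := max_le h5 h6
  omega

/-! ### Concatenation -/

/-- (an exponent whose parity is) bit `n` of the codeword of the message `c` -/
def cb (q k M c n : ℕ) : ℕ :=
  ip (M + 1) (evs c (n / 2 ^ (M + 1) % 2 ^ M) k % q) (n % 2 ^ (M + 1))

/-- the period of the code -/
def per (M : ℕ) : ℕ := 2 ^ M * 2 ^ (M + 1)

theorem cb_periodic (q k M c n t : ℕ) : cb q k M c (per M * t + n) = cb q k M c n := by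
  unfold cb per
  rw [show 2 ^ M * 2 ^ (M + 1) * t + n = 2 ^ (M + 1) * (2 ^ M * t) + n by ring,
    Nat.mul_add_mod, Nat.mul_add_div (by positivity), Nat.mul_add_mod]

theorem cb_split (q k M c a u : ℕ) (ha : a < 2 ^ M) (hu : u < 2 ^ (M + 1)) :
    cb q k M c (a * 2 ^ (M + 1) + u) = ip (M + 1) (evs c a k % q) u := by
  unfold cb
  rw [mul_comm, Nat.mul_add_div (by positivity), Nat.mul_add_mod, Nat.div_eq_of_lt hu,
    Nat.mod_eq_of_lt hu, add_zero, Nat.mod_eq_of_lt ha]

theorem sum_range_mul (f : ℕ → ℤ) (A B : ℕ) :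
    ∑ x ∈ range (A * B), f x = ∑ a ∈ range A, ∑ b ∈ range B, f (a * B + b) := by
  induction A with
  | zero => simp
  | succ A ih => rw [Nat.succ_mul, sum_range_add, sum_range_succ, ih]

theorem corr_period {q k M c c' : ℕ} (hq : q.Prime) (hM : 2 ^ M ≤ q) (hqM : q ≤ 2 ^ (M + 1))
    (hc : c < 2 ^ k) (hc' : c' < 2 ^ k) (h : c ≠ c') :
    ∑ x ∈ range (per M), (-1 : ℤ) ^ (cb q k M c x + cb q k M c' x) ≤ k * 2 ^ (M + 1) ∧
    0 ≤ ∑ x ∈ range (per M), (-1 : ℤ) ^ (cb q k M c x + cb q k M c' x) := by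
  unfold per
  rw [sum_range_mul]
  have h1 : ∀ a ∈ range (2 ^ M), ∑ b ∈ range (2 ^ (M + 1)),
      (-1 : ℤ) ^ (cb q k M c (a * 2 ^ (M + 1) + b) + cb q k M c' (a * 2 ^ (M + 1) + b)) =
      if evs c a k % q = evs c' a k % q then 2 ^ (M + 1) else 0 := by
    intro a ha
    have ha' := mem_range.1 ha
    have : ∑ b ∈ range (2 ^ (M + 1)),
      (-1 : ℤ) ^ (cb q k M c (a * 2 ^ (M + 1) + b) + cb q k M c' (a * 2 ^ (M + 1) + b)) =
        hsum (M + 1) (evs c a k % q) (evs c' a k % q) := by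
      unfold hsum
      apply sum_congr rfl
      intro u hu
      rw [cb_split _ _ _ _ _ _ ha' (mem_range.1 hu), cb_split _ _ _ _ _ _ ha' (mem_range.1 hu)]
    rw [this]
    split_ifs with he
    · rw [he, hsum_self]
    · apply hsum_ne
      have hq0 : 0 < q := hq.pos
      rwa [Nat.mod_eq_of_lt (lt_of_lt_of_le (Nat.mod_lt _ hq0) hqM),
        Nat.mod_eq_of_lt (lt_of_lt_of_le (Nat.mod_lt _ hq0) hqM)]
  rw [sum_congr rfl h1, ← sum_filter, sum_const, nsmul_eq_mul]
  constructor
  · have := card_collision hq hc hc' h hM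
    exact mul_le_mul_of_nonneg_right (by exact_mod_cast this) (by positivity)
  · positivity

theorem sum_periodic (f : ℕ → ℤ) (P : ℕ) (hf : ∀ t n, f (P * t + n) = f n) (t w : ℕ) :
    ∑ x ∈ range (P * w), f (P * t + x) = w * ∑ x ∈ range P, f x := by
  induction w with
  | zero => simp
  | succ w ih =>
    rw [Nat.mul_succ, sum_range_add, ih]
    have : ∀ x ∈ range P, f (P * t + (P * w + x)) = f x := by
      intro x _
      rw [← add_assoc, ← mul_add, hf]
    rw [sum_congr rfl this]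
    push_cast
    ring

/-- Correlation of two codewords on an aligned interval. -/
theorem corr_le {q k M c c' : ℕ} (hq : q.Prime) (hM : 2 ^ M ≤ q) (hqM : q ≤ 2 ^ (M + 1))
    (hc : c < 2 ^ k) (hc' : c' < 2 ^ k) (h : c ≠ c') (t w : ℕ) :
    |∑ x ∈ range (per M * w), (-1 : ℤ) ^ cb q k M c (per M * t + x) *
      (-1 : ℤ) ^ cb q k M c' (per M * t + x)| ≤ w * (k * 2 ^ (M + 1)) := by
  have h1 := corr_period hq hM hqM hc hc' h
  simp only [← pow_add]
  rw [sum_periodic (fun x => (-1 : ℤ) ^ (cb q k M c x + cb q k M c' x)) (per M)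
    (fun t n => by simp only [cb_periodic]) t w]
  rw [abs_of_nonneg (mul_nonneg (by positivity) h1.2)]
  exact mul_le_mul_of_nonneg_left h1.1 (by positivity)

end Q206.Gam
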