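import Pool.Agent.Q206.Gam.Bad

/-!
# Densities
-/

namespace Q206.Gam

open Finset Filter Q206.Ioe

/-- partial sums -/
def psum (v : ℕ → ℤ) (n : ℕ) : ℤ := ∑ x ∈ range n, v x

theorem psum_add (v : ℕ → ℤ) (n m : ℕ) : psum v (n + m) = psum v n + ∑ x ∈ range m, v (n + x) := by
  unfold psum; rw [sum_range_add]

theorem abs_psum_le {v : ℕ → ℤ} (hv : ∀ n, |v n| ≤ 1) (n : ℕ) : |psum v n| ≤ n := by
  unfold psum
  refine (abs_sum_le_sum_abs _ _).trans ?_
  refine (sum_le_sum (fun x _ => hv x)).trans ?_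
  simp

/-- A sequence of signs which is balanced on the blocks of the dyadic intervals has small partial
sums. -/
theorem psum_bound {v : ℕ → ℤ} (hv : ∀ n, |v n| ≤ 1) {s : ℕ → ℕ} {e m₀ : ℕ}
    (hs : ∀ m ≥ m₀, e ≤ s m ∧ s m ≤ m)
    (hblock : ∀ m ≥ m₀, ∀ a < 2 ^ s m,
      2 ^ s m * |∑ x ∈ range (2 ^ (m - s m)), v (2 ^ m + a * 2 ^ (m - s m) + x)| ≤
        2 * 2 ^ (m - s m)) :
    ∀ n ≥ 2 ^ m₀, 2 ^ e * |psum v n| ≤ 2 ^ e * 2 ^ m₀ + 3 * n := by
  -- inside a dyadic interval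
  have h1 : ∀ m ≥ m₀, ∀ a ≤ 2 ^ s m,
      2 ^ e * |psum v (2 ^ m + a * 2 ^ (m - s m)) - psum v (2 ^ m)| ≤
        2 * (a * 2 ^ (m - s m)) := by
    intro m hm a
    induction a with
    | zero => intro _; simp
    | succ a ih =>
      intro ha
      have ih' := ih (by omega)
      have hb := hblock m hm a (by omega)
      have e1 : 2 ^ m + (a + 1) * 2 ^ (m - s m) = 2 ^ m + a * 2 ^ (m - s m) + 2 ^ (m - s m) := by
        ring
      rw [e1, psum_add]
      set A := psum v (2 ^ m + a * 2 ^ (m - s m)) with hA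
      set B := ∑ x ∈ range (2 ^ (m - s m)), v (2 ^ m + a * 2 ^ (m - s m) + x) with hB
      have h2 : (2 : ℤ) ^ e * |B| ≤ 2 * 2 ^ (m - s m) := by
        refine le_trans ?_ hb
        exact mul_le_mul_of_nonneg_right (pow_le_pow_right₀ (by norm_num) (hs m hm).1)
          (abs_nonneg _)
      have h3 : |A + B - psum v (2 ^ m)| ≤ |A - psum v (2 ^ m)| + |B| := by
        have : A + B - psum v (2 ^ m) = (A - psum v (2 ^ m)) + B := by ring
        rw [this]
        exact abs_add_le _ _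
      have h4 : (2 : ℤ) ^ e * |A + B - psum v (2 ^ m)| ≤
          2 ^ e * (|A - psum v (2 ^ m)| + |B|) := mul_le_mul_of_nonneg_left h3 (by positivity)
      push_cast
      nlinarith
  -- powers of two
  have h2 : ∀ m ≥ m₀, 2 ^ e * |psum v (2 ^ m)| ≤ 2 ^ e * 2 ^ m₀ + 2 * 2 ^ m := by
    intro m hm
    induction m, hm using Nat.le_induction with
    | base =>
      have := abs_psum_le hv (2 ^ m₀)
      push_cast at this
      have h3 : (2 : ℤ) ^ e * |psum v (2 ^ m₀)| ≤ 2 ^ e * 2 ^ m₀ :=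
        mul_le_mul_of_nonneg_left this (by positivity)
      have : (0 : ℤ) ≤ 2 * 2 ^ m₀ := by positivity
      linarith
    | succ m hm ih =>
      have h3 := h1 m hm (2 ^ s m) le_rfl
      have e1 : 2 ^ m + 2 ^ s m * 2 ^ (m - s m) = 2 ^ (m + 1) := by
        rw [← pow_add, Nat.add_sub_cancel' (hs m hm).2, pow_succ]; ring
      have e2 : ((2 ^ s m : ℕ) : ℤ) * 2 ^ (m - s m) = 2 ^ m := by
        push_cast
        rw [← pow_add, Nat.add_sub_cancel' (hs m hm).2]
      rw [e1, e2] at h3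
      have h4 : |psum v (2 ^ (m + 1))| ≤
          |psum v (2 ^ (m + 1)) - psum v (2 ^ m)| + |psum v (2 ^ m)| := by
        have := abs_add_le (psum v (2 ^ (m + 1)) - psum v (2 ^ m)) (psum v (2 ^ m))
        rwa [sub_add_cancel] at this
      have h5 : (2 : ℤ) ^ e * |psum v (2 ^ (m + 1))| ≤
          2 ^ e * (|psum v (2 ^ (m + 1)) - psum v (2 ^ m)| + |psum v (2 ^ m)|) :=
        mul_le_mul_of_nonneg_left h4 (by positivity)
      have h6 : (2 : ℤ) ^ (m + 1) = 2 * 2 ^ m := by rw [pow_succ]; ring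
      rw [h6]
      nlinarith
  intro n hn
  have hn0 : n ≠ 0 := by
    have : 0 < 2 ^ m₀ := by positivity
    omega
  set m := Nat.log 2 n with hm
  have hm0 : m₀ ≤ m := Nat.le_log_of_pow_le (by norm_num) hn
  have hmn : 2 ^ m ≤ n := Nat.pow_log_le_self 2 hn0
  have hnm : n < 2 ^ (m + 1) := Nat.lt_pow_succ_log_self (by norm_num) n
  obtain ⟨hes, hsm⟩ := hs m hm0
  set l := 2 ^ (m - s m) with hl
  have hlpos : 0 < l := by positivity
  have hsl : 2 ^ s m * l = 2 ^ m := by rw [hl, ← pow_add, Nat.add_sub_cancel' hsm]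
  set a := (n - 2 ^ m) / l with ha
  set r := (n - 2 ^ m) % l with hr
  have hdecomp : 2 ^ m + a * l + r = n := by
    have := Nat.div_add_mod (n - 2 ^ m) l
    rw [← ha, ← hr, mul_comm] at this
    omega
  have halt : a < 2 ^ s m := by
    rw [ha, Nat.div_lt_iff_lt_mul hlpos, hsl]
    rw [pow_succ] at hnm
    omega
  have hrl : r < l := Nat.mod_lt _ hlpos
  have h3 := h1 m hm0 a halt.le
  have h4 := h2 m hm0
  have h5 : psum v n = psum v (2 ^ m + a * l) + ∑ x ∈ range r, v (2 ^ m + a * l + x) := by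
    rw [← psum_add, hdecomp]
  have h6 : |∑ x ∈ range r, v (2 ^ m + a * l + x)| ≤ r := by
    refine (abs_sum_le_sum_abs _ _).trans ?_
    refine (sum_le_sum (fun x _ => hv _)).trans ?_
    simp
  have h7 : |psum v n| ≤ |psum v (2 ^ m + a * l) - psum v (2 ^ m)| + |psum v (2 ^ m)| + r := by
    rw [h5]
    calc |psum v (2 ^ m + a * l) + ∑ x ∈ range r, v (2 ^ m + a * l + x)|
        = |(psum v (2 ^ m + a * l) - psum v (2 ^ m)) + psum v (2 ^ m) +
            ∑ x ∈ range r, v (2 ^ m + a * l + x)| := by congr 1; ring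
      _ ≤ |(psum v (2 ^ m + a * l) - psum v (2 ^ m)) + psum v (2 ^ m)| +
            |∑ x ∈ range r, v (2 ^ m + a * l + x)| := abs_add_le _ _
      _ ≤ _ := add_le_add (abs_add_le _ _) h6
  have h8 : (2 : ℤ) ^ e * |psum v n| ≤
      2 ^ e * (|psum v (2 ^ m + a * l) - psum v (2 ^ m)| + |psum v (2 ^ m)| + r) :=
    mul_le_mul_of_nonneg_left h7 (by positivity)
  have h9 : (2 : ℤ) ^ e * r ≤ n := by
    have : 2 ^ e * r ≤ n := by
      calc 2 ^ e * r ≤ 2 ^ s m * l :=
            Nat.mul_le_mul (Nat.pow_le_pow_right (by norm_num) hes) hrl.le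
        _ = 2 ^ m := hsl
        _ ≤ n := hmn
    exact_mod_cast this
  have h10 : 2 * (2 : ℤ) ^ m + 2 * (a * l) ≤ 2 * n := by
    have : 2 * 2 ^ m + 2 * (a * l) ≤ 2 * n := by omega
    exact_mod_cast this
  have h3' : (2 : ℤ) ^ e * |psum v (2 ^ m + a * l) - psum v (2 ^ m)| ≤ 2 * (a * l) := by
    rw [hl]; push_cast; exact h3
  nlinarith

/-! ### Lower density, coarse computability bound, Gamma value -/

/-- lower density -/
noncomputable def lowerDensity (S : Set ℕ) : ℝ :=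
  liminf (fun n : ℕ => ((S ∩ Set.Iio n).ncard : ℝ) / n) atTop

/-- the set of arguments on which two sets agree -/
def agree (Y A : Set ℕ) : Set ℕ := {n | n ∈ Y ↔ n ∈ A}

open Classical in
/-- characteristic function -/
noncomputable def chi (S : Set ℕ) (n : ℕ) : ℕ := if n ∈ S then 1 else 0

/-- Turing reducibility of sets -/
def SetLE (Y X : Set ℕ) : Prop := TuringReducible (chi Y : ℕ →. ℕ) (chi X : ℕ →. ℕ)

/-- coarse computability bound -/
noncomputable def gammaBd (Y : Set ℕ) : ℝ :=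
  sSup {x : ℝ | ∃ C : Set ℕ, ComputablePred (fun n => n ∈ C) ∧ x = lowerDensity (agree Y C)}

/-- Gamma value -/
noncomputable def GammaVal (X : Set ℕ) : ℝ := sInf {x : ℝ | ∃ Y : Set ℕ, SetLE Y X ∧ x = gammaBd Y}

theorem ncard_inter_Iio (S : Set ℕ) (n : ℕ) :
    ((S ∩ Set.Iio n).ncard : ℤ) = ∑ x ∈ range n, (chi S x : ℤ) := by
  classical
  have h : S ∩ Set.Iio n = (((range n).filter (fun x => x ∈ S) : Finset ℕ) : Set ℕ) := by
    ext x; simp [and_comm]
  rw [h, Set.ncard_coe_finset, card_filter]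
  push_cast
  apply sum_congr rfl
  intro x _
  simp [chi]

theorem ncard_le (S : Set ℕ) (n : ℕ) : (S ∩ Set.Iio n).ncard ≤ n := by
  have h := Set.ncard_le_ncard (s := S ∩ Set.Iio n) (t := Set.Iio n) Set.inter_subset_right
    (Set.finite_Iio n)
  have h2 : (Set.Iio n).ncard = n := by
    rw [Set.ncard_eq_toFinset_card' ]; simp
  omega

theorem ratio_nonneg (S : Set ℕ) (n : ℕ) : 0 ≤ ((S ∩ Set.Iio n).ncard : ℝ) / n := by positivity

theorem ratio_le_one (S : Set ℕ) (n : ℕ) : ((S ∩ Set.Iio n).ncard : ℝ) / n ≤ 1 := by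
  rcases Nat.eq_zero_or_pos n with h | h
  · subst h; simp
  · rw [div_le_one (by exact_mod_cast h)]
    exact_mod_cast ncard_le S n

theorem lowerDensity_le {S : Set ℕ} {c : ℝ}
    (h : ∃ᶠ n in atTop, ((S ∩ Set.Iio n).ncard : ℝ) / n ≤ c) : lowerDensity S ≤ c := by
  unfold lowerDensity
  exact liminf_le_of_frequently_le h
    ⟨0, eventually_map.2 (Eventually.of_forall (fun n => ratio_nonneg S n))⟩

theorem lowerDensity_nonneg (S : Set ℕ) : 0 ≤ lowerDensity S := by
  unfold lowerDensity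
  apply le_liminf_of_le
  · exact ⟨1, fun a ha => by
      obtain ⟨n, hn⟩ := (eventually_map.1 ha).exists
      exact hn.trans (ratio_le_one S n)⟩
  · exact Eventually.of_forall (fun n => ratio_nonneg S n)

theorem lowerDensity_le_one (S : Set ℕ) : lowerDensity S ≤ 1 :=
  lowerDensity_le (Eventually.of_forall (fun n => ratio_le_one S n)).frequently

theorem gammaBd_nonneg (Y : Set ℕ) : 0 ≤ gammaBd Y := by
  unfold gammaBd
  refine le_csSup_of_le ?_ ⟨∅, ?_, rfl⟩ (lowerDensity_nonneg _)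
  · exact ⟨1, fun x hx => by obtain ⟨C, _, rfl⟩ := hx; exact lowerDensity_le_one _⟩
  · have : ComputablePred (fun _ : ℕ => False) :=
      ComputablePred.computable_iff.2 ⟨fun _ => false, Computable.const false, by simp⟩
    simpa using this

theorem gammaBd_le {Y : Set ℕ} {c : ℝ}
    (h : ∀ C : Set ℕ, ComputablePred (fun n => n ∈ C) → lowerDensity (agree Y C) ≤ c) :
    gammaBd Y ≤ c := by
  unfold gammaBd
  refine csSup_le ⟨_, ∅, ?_, rfl⟩ ?_
  · have : ComputablePred (fun _ : ℕ => False) :=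
      ComputablePred.computable_iff.2 ⟨fun _ => false, Computable.const false, by simp⟩
    simpa using this
  · rintro x ⟨C, hC, rfl⟩
    exact h C hC

theorem GammaVal_le {X Y : Set ℕ} (h : SetLE Y X) : GammaVal X ≤ gammaBd Y := by
  unfold GammaVal
  exact csInf_le ⟨0, fun x hx => by obtain ⟨Z, _, rfl⟩ := hx; exact gammaBd_nonneg Z⟩ ⟨Y, h, rfl⟩

end Q206.Gam
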