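import Pool.Agent.Q206.Gam.Main

/-!
# Agreement density exactly one half: the final argument
-/

namespace Q206.Gam

open Finset Filter Q206.Ioe Encodable

/-! ### Limit of the ratios -/

/-- `S` has asymptotic density `d`. -/
def HasDensity (S : Set ℕ) (d : ℝ) : Prop :=
  Tendsto (fun n : ℕ => ((S ∩ Set.Iio n).ncard : ℝ) / n) atTop (nhds d)

theorem HasDensity.lowerDensity_eq {S : Set ℕ} {d : ℝ} (h : HasDensity S d) :
    lowerDensity S = d := Tendsto.liminf_eq h

theorem hasDensity_half {S : Set ℕ} {v : ℕ → ℤ}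
    (hS : ∀ n, psum v n = 2 * ((S ∩ Set.Iio n).ncard : ℤ) - n)
    (h : ∀ e : ℕ, ∃ m₀ : ℕ, ∀ n ≥ 2 ^ m₀, 2 ^ e * |psum v n| ≤ 2 ^ e * 2 ^ m₀ + 3 * (n : ℤ)) :
    HasDensity S (1 / 2) := by
  unfold HasDensity
  rw [Metric.tendsto_atTop]
  intro ε hε
  obtain ⟨e, he⟩ := exists_pow_lt_of_lt_one (show 0 < ε / 2 by positivity)
    (show (1 / 2 : ℝ) < 1 by norm_num)
  obtain ⟨m₀, hm₀⟩ := h e
  refine ⟨2 ^ e * 2 ^ m₀, ?_⟩
  intro n hn
  have hn1 : 2 ^ m₀ ≤ n := le_trans (Nat.le_mul_of_pos_left _ (by positivity)) hn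
  have hnpos : 0 < n := lt_of_lt_of_le (by positivity) hn1
  have h1 := hm₀ n hn1
  have h2 : (2 : ℤ) ^ e * 2 ^ m₀ ≤ n := by exact_mod_cast hn
  have h3 : (2 : ℝ) ^ e * |(psum v n : ℝ)| ≤ 4 * n := by
    have : (2 : ℤ) ^ e * |psum v n| ≤ 4 * n := by linarith
    exact_mod_cast this
  have hn' : (0 : ℝ) < n := by exact_mod_cast hnpos
  have h4 : ((S ∩ Set.Iio n).ncard : ℝ) / n - 1 / 2 = (psum v n : ℝ) / (2 * n) := by
    rw [hS n]
    push_cast
    field_simp
  rw [Real.dist_eq, h4, abs_div, abs_of_pos (show (0 : ℝ) < 2 * n by positivity),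
    div_lt_iff₀ (by positivity)]
  have h5 : |(psum v n : ℝ)| ≤ (1 / 2) ^ e * (4 * n) := by
    rw [one_div, inv_pow, ← div_eq_inv_mul, le_div_iff₀ (by positivity), mul_comm]
    exact h3
  have h6 : (1 / 2 : ℝ) ^ e * (4 * n) < ε / 2 * (4 * n) :=
    mul_lt_mul_of_pos_right he (by positivity)
  calc |(psum v n : ℝ)| ≤ (1 / 2) ^ e * (4 * n) := h5
    _ < ε / 2 * (4 * n) := h6
    _ = ε * (2 * n) := by ring

/-- agreement signs -/
theorem psum_agree (Y A : Set ℕ) (f : ℕ → ℕ) (hA : ∀ n, n ∈ A ↔ f n % 2 = 1) (n : ℕ) :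
    psum (fun n => (-1 : ℤ) ^ f n * (-1 : ℤ) ^ chi Y n) n =
      2 * ((agree Y A ∩ Set.Iio n).ncard : ℤ) - n := by
  rw [ncard_inter_Iio, mul_sum]
  have h2 : (n : ℤ) = ∑ _x ∈ range n, (1 : ℤ) := by simp
  conv_rhs => rw [h2]
  rw [← sum_sub_distrib]
  unfold psum
  apply sum_congr rfl
  intro x _
  show (-1 : ℤ) ^ f x * (-1 : ℤ) ^ chi Y x = _
  rw [neg_one_pow_mod]
  have hAx := hA x
  have hag : x ∈ agree Y A ↔ (x ∈ Y ↔ x ∈ A) := Iff.rfl
  unfold chi
  by_cases h1 : x ∈ Y <;> rcases Nat.mod_two_eq_zero_or_one (f x) with h3 | h3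
  · have h4 : x ∉ A := by rw [hAx, h3]; decide
    have h5 : x ∉ agree Y A := by rw [hag]; tauto
    simp [h1, h3, h5]
  · have h4 : x ∈ A := by rw [hAx, h3]
    have h5 : x ∈ agree Y A := by rw [hag]; tauto
    simp [h1, h3, h5]
  · have h4 : x ∉ A := by rw [hAx, h3]; decide
    have h5 : x ∈ agree Y A := by rw [hag]; tauto
    simp [h1, h3, h5]
  · have h4 : x ∈ A := by rw [hAx, h3]
    have h5 : x ∉ agree Y A := by rw [hag]; tauto
    simp [h1, h3, h5]

/-! ### The capture property -/

/-- window of `n` -/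
def iw (n : ℕ) : ℕ := Nat.log 2 (Nat.log 2 n) - 4

theorem primrec_iw : Primrec iw :=
  Primrec.nat_sub.comp ((primrec_log (by norm_num)).comp (primrec_log (by norm_num)))
    (Primrec.const 4)

/-- the end of window `i` -/
def Tf (i : ℕ) : ℕ := 2 ^ 2 ^ (i + 5)

theorem primrec_Tf : Primrec Tf := primrec_2pow (primrec_2pow (primrec_addc Primrec.id 5))

/-- the list of bad messages for the set `Y` -/
noncomputable def LY (Y : Set ℕ) (i : ℕ) : List ℕ := badList (qf i) i (hist (chi Y) (Tf i))

theorem recT_LY (Y : Set ℕ) : RecT (chi Y) (fun i => encode (LY Y i)) := by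
  have h1 : RecT (chi Y) (fun i => encode (hist (chi Y) (Tf i))) :=
    recT_hist.comp (RecT.of_computable primrec_Tf.to_comp)
  refine recT_list' (L := fun i => hist (chi Y) (Tf i)) h1 (φ := fun i => i) Computable.id
    (G := fun i l => badList (qf i) i l) ?_
  exact primrec_badList.to_comp.comp (Computable.pair (Computable.pair
    (computable_qf.comp Computable.fst) Computable.fst) Computable.snd)

theorem hist_getD (X : ℕ → ℕ) {n x : ℕ} (h : x < n) : (hist X n).getD x 0 = X x := by
  unfold hist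
  rw [List.getD_eq_getElem _ _ (by simpa using h)]
  simp

/-- the exponents of the word `A` given by the messages `c i` -/
def wordA (c : ℕ → ℕ) (n : ℕ) : ℕ := cb (qf (iw n)) (kf (iw n)) (Mf (iw n)) (c (iw n)) n

theorem computable_wordA {c : ℕ → ℕ} (hc : Computable c) : Computable (wordA c) := by
  have hi : Computable iw := primrec_iw.to_comp
  exact primrec_cb.to_comp.comp (Computable.pair (Computable.pair (Computable.pair
    (computable_qf.comp hi) (primrec_kf.to_comp.comp hi)) (primrec_Mf.to_comp.comp hi))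
    (Computable.pair (hc.comp hi) Computable.id))

theorem capture {Y : Set ℕ}
    (hY : ∀ A : Set ℕ, ComputablePred (fun n => n ∈ A) → ¬ HasDensity (agree Y A) (1 / 2))
    (c : ℕ → ℕ) (hc : Computable c) (hclt : ∀ i, c i < 2 ^ kf i) (N : ℕ) :
    ∃ i ≥ N, c i ∈ LY Y i := by
  by_contra hcon
  push Not at hcon
  set A : Set ℕ := {n | wordA c n % 2 = 1} with hA
  have hAc : ComputablePred (fun n => n ∈ A) := by
    rw [ComputablePred.computable_iff]
    refine ⟨fun n => decide (wordA c n % 2 = 1), ?_, ?_⟩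
    · have : PrimrecPred (fun n : ℕ => n % 2 = 1) :=
        Primrec.eq.comp (Primrec.nat_mod.comp Primrec.id (Primrec.const 2)) (Primrec.const 1)
      exact this.decide.to_comp.comp (computable_wordA hc)
    · funext n
      simp [hA]
  refine hY A hAc ?_
  refine hasDensity_half (psum_agree Y A (wordA c) (fun n => Iff.rfl)) ?_
  intro e
  set i₀ := max N (3 * e + 4) with hi₀
  set m₀ := 2 ^ (i₀ + 4) with hm₀
  -- the window of `m`
  have hlog : ∀ m ≥ m₀, i₀ + 4 ≤ Nat.log 2 m := fun m hm => Nat.le_log_of_pow_le (by norm_num) hm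
  refine ⟨m₀, ?_⟩
  refine psum_bound (s := fun m => sf (Nat.log 2 m - 4)) ?_ ?_ ?_
  · intro n
    rw [← pow_add, abs_pow]; simp
  · intro m hm
    have h1 := hlog m hm
    have h2 : 3 * e + 4 ≤ i₀ := le_max_right _ _
    constructor
    · simp only [sf]; omega
    · have h3 := (sf_le (Nat.log 2 m - 4)).1
      have h4 : Nat.log 2 m ≤ m := Nat.log_le_self 2 m
      omega
  · intro m hm a ha
    have h1 := hlog m hm
    have hm0 : m ≠ 0 := by
      have : 0 < m₀ := by rw [hm₀]; positivity
      omega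
    set i := Nat.log 2 m - 4 with hi
    have hiN : N ≤ i := by
      have : N ≤ i₀ := le_max_left _ _
      omega
    have hi4 : 4 ≤ i := by
      have : 3 * e + 4 ≤ i₀ := le_max_right _ _
      omega
    have hlogm : Nat.log 2 m = i + 4 := by omega
    have hle : 2 ^ (i + 4) ≤ m := by rw [← hlogm]; exact Nat.pow_log_le_self 2 hm0
    have hlt : m < 2 ^ (i + 5) := by
      rw [show i + 5 = Nat.log 2 m + 1 by omega]
      exact Nat.lt_pow_succ_log_self (by norm_num) m
    obtain ⟨j, hj⟩ : ∃ j, m = 2 ^ (i + 4) + j := ⟨m - 2 ^ (i + 4), by omega⟩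
    have hjlt : j < 2 ^ (i + 4) := by
      have : 2 ^ (i + 5) = 2 * 2 ^ (i + 4) := by rw [pow_succ]; ring
      omega
    have hnb : ¬ BadB (qf i) i (c i) (hist (chi Y) (Tf i)) j a := by
      intro hb
      apply hcon i hiN
      unfold LY badList
      rw [if_pos hi4, List.mem_filter]
      exact ⟨List.mem_range.2 (hclt i), by
        rw [decide_eq_true_eq]; exact ⟨j, hjlt, a, ha, hb⟩⟩
    have h2 := (not_BadB_iff _ _ _ _ _ _).1 hnb
    have hlen : blen i j = 2 ^ (m - sf i) := by unfold blen; rw [← hj]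
    have hst : bst i j a = 2 ^ m + a * 2 ^ (m - sf i) := by unfold bst; rw [hlen, ← hj]
    rw [hlen, hst] at h2
    push_cast at h2
    have hsm : sf i ≤ m := by
      have := (exp_ineq i j).2
      omega
    have h3 : ∑ x ∈ range (2 ^ (m - sf i)), (-1 : ℤ) ^ wordA c (2 ^ m + a * 2 ^ (m - sf i) + x) *
          (-1 : ℤ) ^ chi Y (2 ^ m + a * 2 ^ (m - sf i) + x) =
        ∑ x ∈ range (2 ^ (m - sf i)),
          (-1 : ℤ) ^ cb (qf i) (kf i) (Mf i) (c i) (2 ^ m + a * 2 ^ (m - sf i) + x) *
          (-1 : ℤ) ^ (hist (chi Y) (Tf i)).getD (2 ^ m + a * 2 ^ (m - sf i) + x) 0 := by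
      apply sum_congr rfl
      intro x hx
      rw [mem_range] at hx
      set n := 2 ^ m + a * 2 ^ (m - sf i) + x with hn
      have hnlt : n < 2 ^ (m + 1) := by
        have h4 : (a + 1) * 2 ^ (m - sf i) ≤ 2 ^ sf i * 2 ^ (m - sf i) :=
          Nat.mul_le_mul_right _ ha
        rw [← pow_add, Nat.add_sub_cancel' hsm] at h4
        have h5 : 2 ^ (m + 1) = 2 ^ m + 2 ^ m := by rw [pow_succ]; ring
        rw [add_mul, one_mul] at h4
        omega
      have hnge : 2 ^ m ≤ n := by omega
      have hlogn : Nat.log 2 n = m := by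
        rw [Nat.log_eq_iff (Or.inl hm0)]
        exact ⟨hnge, hnlt⟩
      have hiw : iw n = i := by unfold iw; rw [hlogn]
      have hT : n < Tf i := by
        refine lt_of_lt_of_le hnlt ?_
        unfold Tf
        exact Nat.pow_le_pow_right (by norm_num) hlt
      unfold wordA
      rw [hiw, hist_getD _ hT]
    rw [h3]
    exact h2

/-! ### Sets computed from infinitely-often-equal functions -/

theorem win_succ' (j : ℕ) : win (j + 1) = 4 * win j + 1 := by
  have h1 := win_succ j
  have h2 := win_spec j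
  omega

/-- the set whose word on window `j` is the complement of the binary word of `u j` -/
def ZS (u : ℕ → ℕ) : Set ℕ := {n | dig 2 (n - win (wix n)) (u (wix n)) = 0}

theorem recT_ZS (u : ℕ → ℕ) : RecT u (chi (ZS u)) := by
  have h1 : Computable (fun q : ℕ => 1 - dig 2 (q.unpair.1 - win (wix q.unpair.1)) q.unpair.2) := by
    have hn : Primrec (fun q : ℕ => q.unpair.1) := Primrec.fst.comp Primrec.unpair
    have h2 : Primrec (fun q : ℕ => q.unpair.2) := Primrec.snd.comp Primrec.unpair
    exact (Primrec.nat_sub.comp (Primrec.const 1) (primrec_dig.comp (Primrec.pair (Primrec.pair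
      (Primrec.const 2) (Primrec.nat_sub.comp hn (primrec_win.comp (primrec_wix.comp hn))))
      h2))).to_comp
  have h3 := (RecT.of_computable (X := u) h1).comp (RecT.pair (RecT.of_computable Computable.id)
    (RecT.oracle.comp (RecT.of_computable primrec_wix.to_comp)))
  have h4 : (fun n => 1 - dig 2 ((Nat.pair (id n) (u (wix n))).unpair.1 -
      win (wix (Nat.pair (id n) (u (wix n))).unpair.1)) (Nat.pair (id n) (u (wix n))).unpair.2) =
      chi (ZS u) := by
    funext n
    simp only [Nat.unpair_pair, id]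
    unfold chi ZS
    simp only [Set.mem_ofPred_eq]
    have : dig 2 (n - win (wix n)) (u (wix n)) < 2 := Nat.mod_lt _ (by norm_num)
    split_ifs with h <;> omega
  rw [h4] at h3
  exact h3

theorem gammaBd_ZS {u : ℕ → ℕ} (hu : u ∈ IOE (fun j => 2 ^ 4 ^ j)) : gammaBd (ZS u) ≤ 1 / 4 := by
  apply gammaBd_le
  intro C hC
  obtain ⟨f, hf, hfC⟩ := ComputablePred.computable_iff.1 hC
  have hfC' : ∀ n, n ∈ C ↔ f n = true := fun n => by
    have := congrFun hfC n
    simp only [eq_iff_iff] at this
    exact this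
  set g : ℕ → ℕ := fun n => if f n = true then 1 else 0 with hg
  have hgc : Computable g := by
    refine (Computable.cond hf (Computable.const 1) (Computable.const 0)).of_eq ?_
    intro n
    cases h : f n <;> simp [hg, h]
  have hg2 : ∀ n, g n < 2 := by intro n; simp only [hg]; split_ifs <;> omega
  set r : ℕ → ℕ := fun j => cod 2 (fun l => g (win j + l)) (4 ^ j) with hr
  have hrc : Computable r := (computable_cod hgc).comp (Computable.pair (Computable.pair
    (Computable.const 2) primrec_win.to_comp)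
    (primrec_pow.comp (Primrec.const 4) Primrec.id).to_comp)
  have hrlt : ∀ j, r j < 2 ^ 4 ^ j := fun j => cod_lt _ (fun l _ => hg2 _)
  have hinf := mem_IOE.1 hu r hrc hrlt
  apply lowerDensity_le
  rw [frequently_atTop]
  intro a
  obtain ⟨j, hj, haj⟩ := hinf.exists_gt a
  have huj : u j = r j := hj
  refine ⟨win (j + 1), ?_, ?_⟩
  · have h1 := win_spec (j + 1)
    have h2 : j + 1 < 4 ^ (j + 1) := Nat.lt_pow_self (by norm_num)
    have h3 : ∀ k : ℕ, k ≤ win k + 1 := by
      intro k
      induction k with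
      | zero => omega
      | succ k ih =>
        have := win_succ k
        have h4 : 1 ≤ 4 ^ k := Nat.one_le_pow _ _ (by norm_num)
        omega
    have := h3 (j + 1)
    omega
  · have hsub : agree (ZS u) C ∩ Set.Iio (win (j + 1)) ⊆ Set.Iio (win j) := by
      rintro x ⟨hx1, hx2⟩
      rw [Set.mem_Iio] at hx2 ⊢
      by_contra hge
      push Not at hge
      have hwx : wix x = j := by
        apply le_antisymm
        · by_contra hlt
          push Not at hlt
          have h1 := win_wix_le x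
          have h2 : win (j + 1) ≤ win (wix x) := by
            have hmono : Monotone win := monotone_nat_of_le_succ (fun k => by
              rw [win_succ]; exact Nat.le_add_right _ _)
            exact hmono hlt
          omega
        · exact le_wix hge
      have hl : x - win j < 4 ^ j := by
        have := win_succ j
        omega
      have hd : dig 2 (x - win j) (u j) = g x := by
        rw [huj, hr]
        have := cod_digit (F := 2) (r := fun l => g (win j + l)) (4 ^ j) (x - win j) hl
          (fun l _ => hg2 _)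
        unfold dig
        rw [this]
        congr 1
        omega
      have h3 : x ∈ ZS u ↔ g x = 0 := by
        unfold ZS
        rw [Set.mem_ofPred_eq, hwx, hd]
      have h4 : x ∈ C ↔ g x = 1 := by
        rw [hfC']
        simp only [hg]
        split_ifs with h <;> simp [h]
      have h5 : x ∈ ZS u ↔ x ∈ C := hx1
      rw [h3, h4] at h5
      have := hg2 x
      omega
    have h6 : (agree (ZS u) C ∩ Set.Iio (win (j + 1))).ncard ≤ win j := by
      refine (Set.ncard_le_ncard hsub (Set.finite_Iio _)).trans ?_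
      rw [Set.ncard_eq_toFinset_card']; simp
    have h7 : ((agree (ZS u) C ∩ Set.Iio (win (j + 1))).ncard : ℝ) ≤ win j := by exact_mod_cast h6
    rw [win_succ', div_le_iff₀ (by positivity)] 
    rw [win_succ'] at h7
    push_cast
    linarith

/-! ### The theorem -/

theorem exists_half_of_Gamma {X : Set ℕ} (hX : 1 / 4 < GammaVal X) {Y : Set ℕ} (hYX : SetLE Y X) :
    ∃ A : Set ℕ, ComputablePred (fun n => n ∈ A) ∧ HasDensity (agree Y A) (1 / 2) := by
  by_contra hcon
  push Not at hcon
  set F : ℕ → ℕ := fun i => 2 ^ 4 ^ 2 ^ (i + 1) with hF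
  have hFc : Computable F := (primrec_2pow (primrec_pow.comp (Primrec.const 4)
    (primrec_2pow (primrec_addc Primrec.id 1)))).to_comp
  have hkf : ∀ i, F i ^ (2 * 2 ^ i) = 2 ^ kf i := by
    intro i
    rw [hF]
    simp only
    rw [← pow_mul]
    unfold kf
    congr 1
    ring
  obtain ⟨u, hu, huI⟩ := lemmaA (X := chi Y) hFc (recT_LY Y)
    (fun i => length_badList (qf_prime i) (le_qf i) (qf_le i) _)
    (fun c hc hclt N => capture hcon c hc (fun i => by rw [← hkf]; exact hclt i) N)
  have huI' : u ∈ IOE (fun j => 2 ^ 4 ^ j) := by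
    refine IOE_subset (N := 0) ?_ ?_ huI
    · intro n; rw [hF]; positivity
    · intro j _
      rw [hF]
      simp only
      exact Nat.pow_le_pow_right (by norm_num) (Nat.pow_le_pow_right (by norm_num)
        (lt_of_blk j).le)
  have h1 := gammaBd_ZS huI'
  have h2 : RecT (chi Y) (chi (ZS u)) := hu.trans (recT_ZS u)
  have h3 : RecT (chi X) (chi Y) := RecursiveIn.iff_nat.1 hYX
  have h4 : SetLE (ZS u) X := RecursiveIn.iff_nat.2 (h3.trans h2)
  have h5 := GammaVal_le h4
  linarith

end Q206.Gam
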