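import Pool.Agent.Q206.Gam.Code

/-!
# List bound for nearly orthogonal sign vectors
-/

namespace Q206.Gam

open Finset

theorem sq_sign (e : ℕ) : ((-1 : ℤ) ^ e) ^ 2 = 1 := by
  rw [← pow_mul, mul_comm, pow_mul]; norm_num

/-- Johnson-type bound. -/
theorem johnson {ι : Type*} [DecidableEq ι] (S : Finset ι) (N : ℕ) (x : ι → ℕ → ℤ) (y : ℕ → ℤ)
    (hx : ∀ c ∈ S, ∀ n, x c n ^ 2 = 1) (hy : ∀ n, y n ^ 2 = 1) (E T β : ℤ) (hE : 0 ≤ E)
    (hT : 0 ≤ T) (hβ : 0 ≤ β)
    (hcorr : ∀ c ∈ S, ∀ c' ∈ S, c ≠ c' → |∑ n ∈ range N, x c n * x c' n| ≤ E)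
    (hbad : ∀ c ∈ S, T ≤ β * |∑ n ∈ range N, x c n * y n|) :
    (S.card * T) ^ 2 ≤ β ^ 2 * (N * (S.card * N + S.card ^ 2 * E)) := by
  set σ : ι → ℤ := fun c => if 0 ≤ ∑ n ∈ range N, x c n * y n then 1 else -1 with hσ
  have hσ1 : ∀ c, |σ c| = 1 := by
    intro c; simp only [hσ]; split_ifs <;> simp
  have hσD : ∀ c, σ c * ∑ n ∈ range N, x c n * y n = |∑ n ∈ range N, x c n * y n| := by
    intro c
    simp only [hσ]
    split_ifs with h
    · rw [one_mul, abs_of_nonneg h]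
    · rw [abs_of_neg (not_le.1 h)]; ring
  set z : ℕ → ℤ := fun n => ∑ c ∈ S, σ c * x c n with hz
  have h1 : (S.card : ℤ) * T ≤ β * ∑ n ∈ range N, z n * y n := by
    have : ∑ n ∈ range N, z n * y n = ∑ c ∈ S, |∑ n ∈ range N, x c n * y n| := by
      simp only [hz, sum_mul]
      rw [sum_comm]
      apply sum_congr rfl
      intro c _
      rw [← hσD, mul_sum]
      apply sum_congr rfl
      intro n _
      ring
    rw [this, ← nsmul_eq_mul, mul_sum]
    exact card_nsmul_le_sum _ _ _ hbad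
  have h2 : (∑ n ∈ range N, z n * y n) ^ 2 ≤ (∑ n ∈ range N, z n ^ 2) * ∑ n ∈ range N, y n ^ 2 :=
    sum_mul_sq_le_sq_mul_sq _ _ _
  have h3 : ∑ n ∈ range N, y n ^ 2 = N := by
    rw [sum_congr rfl (fun n _ => hy n)]; simp
  have h4 : ∑ n ∈ range N, z n ^ 2 ≤ S.card * N + S.card ^ 2 * E := by
    have e1 : ∑ n ∈ range N, z n ^ 2 =
        ∑ c ∈ S, ∑ c' ∈ S, σ c * σ c' * ∑ n ∈ range N, x c n * x c' n := by
      simp only [hz, sq, sum_mul_sum]
      rw [sum_comm]
      apply sum_congr rfl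
      intro c _
      rw [sum_comm]
      apply sum_congr rfl
      intro c' _
      rw [mul_sum]
      apply sum_congr rfl
      intro n _
      ring
    rw [e1]
    have e2 : ∀ c ∈ S, ∑ c' ∈ S, σ c * σ c' * ∑ n ∈ range N, x c n * x c' n ≤ N + S.card * E := by
      intro c hc
      have e3 : ∀ c' ∈ S, σ c * σ c' * ∑ n ∈ range N, x c n * x c' n ≤
          (if c = c' then (N : ℤ) else 0) + E := by
        intro c' hc'
        by_cases h : c = c'
        · subst h
          simp only [if_true]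
          have e4 : σ c * σ c = 1 := by
            have := hσ1 c
            rw [← abs_mul_abs_self, this]; norm_num
          rw [e4, one_mul]
          have e5 : ∑ n ∈ range N, x c n * x c n = N := by
            have e6 : ∀ n ∈ range N, x c n * x c n = 1 := fun n _ => by
              rw [← sq]; exact hx c hc n
            rw [sum_congr rfl e6]; simp
          rw [e5]; linarith
        · simp only [h, if_false, zero_add]
          refine (le_abs_self _).trans ?_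
          rw [abs_mul, abs_mul, hσ1, hσ1, one_mul, one_mul]
          exact hcorr c hc c' hc' h
      refine (sum_le_sum e3).trans ?_
      rw [sum_add_distrib, sum_ite_eq, if_pos hc, sum_const, nsmul_eq_mul]
    refine (sum_le_sum e2).trans ?_
    rw [sum_const, nsmul_eq_mul]
    apply le_of_eq
    ring
  rw [h3] at h2
  calc ((S.card : ℤ) * T) ^ 2 ≤ (β * ∑ n ∈ range N, z n * y n) ^ 2 :=
        pow_le_pow_left₀ (by positivity) h1 2
    _ = β ^ 2 * (∑ n ∈ range N, z n * y n) ^ 2 := by ring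
    _ ≤ β ^ 2 * ((∑ n ∈ range N, z n ^ 2) * N) := mul_le_mul_of_nonneg_left h2 (by positivity)
    _ ≤ β ^ 2 * ((S.card * N + S.card ^ 2 * E) * N) :=
        mul_le_mul_of_nonneg_left (mul_le_mul_of_nonneg_right h4 (by positivity)) (by positivity)
    _ = _ := by ring

/-- Number of messages whose codeword has correlation above `2 / 2 ^ b` with `y`. -/
theorem card_bad {q k M b : ℕ} (hq : q.Prime) (hM : 2 ^ M ≤ q) (hqM : q ≤ 2 ^ (M + 1))
    (hk : 4 ^ b * k ≤ 2 * 2 ^ M) (t w : ℕ) (hw : 0 < w) (y : ℕ → ℤ) (hy : ∀ n, y n ^ 2 = 1)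
    (S : Finset ℕ) (hS : ∀ c ∈ S, c < 2 ^ k)
    (hbad : ∀ c ∈ S, 2 * ((per M * w : ℕ) : ℤ) ≤
      2 ^ b * |∑ x ∈ range (per M * w), (-1 : ℤ) ^ cb q k M c (per M * t + x) * y x|) :
    S.card ≤ 4 ^ b := by
  rcases Nat.eq_zero_or_pos S.card with h0 | hpos
  · rw [h0]; exact Nat.zero_le _
  set N := per M * w with hN
  have hNpos : 0 < N := by
    rw [hN, per]; positivity
  have hj := johnson S N (fun c n => (-1 : ℤ) ^ cb q k M c (per M * t + n)) y
    (fun c _ n => sq_sign _) hy (w * (k * 2 ^ (M + 1))) (2 * (N : ℤ)) (2 ^ b)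
    (by positivity) (by positivity) (by positivity)
    (fun c hc c' hc' h => corr_le hq hM hqM (hS c hc) (hS c' hc') h t w) hbad
  have h1 : (4 : ℤ) ^ b * (w * (k * 2 ^ (M + 1))) ≤ 2 * N := by
    have : 4 ^ b * (w * (k * 2 ^ (M + 1))) ≤ 2 * N := by
      calc 4 ^ b * (w * (k * 2 ^ (M + 1))) = (4 ^ b * k) * (2 ^ (M + 1) * w) := by ring
        _ ≤ (2 * 2 ^ M) * (2 ^ (M + 1) * w) := Nat.mul_le_mul_right _ hk
        _ = 2 * N := by rw [hN, per]; ring
    exact_mod_cast this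
  have h2 : ((2 : ℤ) ^ b) ^ 2 = 4 ^ b := by rw [← pow_mul, mul_comm, pow_mul]; norm_num
  rw [h2] at hj
  have hN' : (0 : ℤ) < N := by exact_mod_cast hNpos
  have ht' : (0 : ℤ) < S.card := by exact_mod_cast hpos
  have h3 : (4 : ℤ) ^ b * (N * (S.card * N + S.card ^ 2 * (w * (k * 2 ^ (M + 1))))) ≤
      4 ^ b * S.card * N ^ 2 + 2 * S.card ^ 2 * N ^ 2 := by
    have : (4 : ℤ) ^ b * (N * (S.card * N + S.card ^ 2 * (w * (k * 2 ^ (M + 1))))) =
        4 ^ b * S.card * N ^ 2 + (S.card ^ 2 * N) * (4 ^ b * (w * (k * 2 ^ (M + 1)))) := by ring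
    rw [this]
    have h4 : ((S.card : ℤ) ^ 2 * N) * (4 ^ b * (w * (k * 2 ^ (M + 1)))) ≤
        (S.card ^ 2 * N) * (2 * N) := mul_le_mul_of_nonneg_left h1 (by positivity)
    linarith
  have h5 : (2 * (S.card : ℤ)) * (S.card * N ^ 2) ≤ 4 ^ b * (S.card * N ^ 2) := by
    nlinarith [hj.trans h3]
  have h6 := le_of_mul_le_mul_right h5 (by positivity)
  have h7 : (S.card : ℤ) ≤ 4 ^ b := by linarith
  exact_mod_cast h7

end Q206.Gam
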