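import Pool.Agent.Q206.Gam.Density

/-!
# Agreement density exactly one half
-/

namespace Q206.Gam

open Finset Filter Q206.Ioe Encodable

/-! ### The bad lists are short -/

theorem neg_one_pow_mod (e : ℕ) : (-1 : ℤ) ^ e = if e % 2 = 0 then 1 else -1 := by
  rw [← Nat.mod_add_div e 2, pow_add, pow_mul]
  rcases Nat.mod_two_eq_zero_or_one e with h | h <;> simp [h]

theorem agr_sum (q k M c st N : ℕ) (L : List ℕ) :
    ∑ x ∈ range N, (-1 : ℤ) ^ cb q k M c (st + x) * (-1 : ℤ) ^ L.getD (st + x) 0 =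
      2 * (agr q k M c st N L : ℤ) - N := by
  unfold agr
  have h1 : ((List.range N).filter
      (fun x => (cb q k M c (st + x) + L.getD (st + x) 0) % 2 = 0)).length =
      ((range N).filter (fun x => (cb q k M c (st + x) + L.getD (st + x) 0) % 2 = 0)).card := by
    rw [Finset.card_def, Finset.filter_val, Finset.range_val]
    simp only [Multiset.range, Multiset.filter_coe, Multiset.coe_card]
  rw [h1, card_filter]
  push_cast
  rw [mul_sum]
  have h2 : (N : ℤ) = ∑ _x ∈ range N, (1 : ℤ) := by simp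
  conv_rhs => rw [h2]
  rw [← sum_sub_distrib]
  apply sum_congr rfl
  intro x _
  rw [← pow_add, neg_one_pow_mod]
  split_ifs <;> norm_num

theorem natAbs_sub' (a b : ℕ) : (((2 * a - b) + (b - 2 * a) : ℕ) : ℤ) = |2 * (a : ℤ) - b| := by
  rcases le_total (2 * a) b with h | h
  · rw [Nat.sub_eq_zero_of_le h, zero_add, Nat.cast_sub h, abs_sub_comm, abs_of_nonneg]
    · push_cast; ring
    · have : (2 * (a : ℤ)) ≤ b := by exact_mod_cast h
      linarith
  · rw [Nat.sub_eq_zero_of_le h, add_zero, Nat.cast_sub h, abs_of_nonneg]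
    · push_cast; ring
    · have : (b : ℤ) ≤ 2 * a := by exact_mod_cast h
      linarith

theorem sf_le (i : ℕ) : sf i ≤ i ∧ 3 * sf i ≤ i - 4 := by
  unfold sf; omega

theorem exp_ineq (i j : ℕ) : 2 * Mf i + 1 ≤ 2 ^ (i + 4) + j - sf i ∧ sf i ≤ 2 ^ (i + 4) + j := by
  have h1 := sf_le i
  have h2 : i + 1 ≤ 2 ^ i := Nat.lt_two_pow_self
  unfold Mf
  have e1 : 2 ^ (i + 2) = 4 * 2 ^ i := by rw [pow_add]; ring
  have e2 : 2 ^ (i + 4) = 16 * 2 ^ i := by rw [pow_add]; ring
  rw [e1, e2]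
  omega

/-- number of periods in a block -/
def bw (i j : ℕ) : ℕ := 2 ^ (2 ^ (i + 4) + j - sf i - (2 * Mf i + 1))

theorem blen_eq (i j : ℕ) : blen i j = per (Mf i) * bw i j := by
  unfold blen per bw
  rw [← pow_add, ← pow_add]
  congr 1
  have := (exp_ineq i j).1
  omega

theorem bst_eq (i j a : ℕ) : bst i j a = per (Mf i) * (bw i j * (2 ^ sf i + a)) := by
  have h : 2 ^ (2 ^ (i + 4) + j) = 2 ^ sf i * blen i j := by
    unfold blen
    rw [← pow_add]
    congr 1
    have := (exp_ineq i j).2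
    omega
  unfold bst
  rw [h, blen_eq]
  ring

theorem hk_ineq (i : ℕ) : 4 ^ sf i * kf i ≤ 2 * 2 ^ Mf i := by
  have h : 4 ^ sf i * kf i = 2 ^ Mf i := by
    unfold kf Mf
    rw [show (4 : ℕ) = 2 ^ 2 by norm_num, ← pow_mul, ← pow_mul, ← pow_add, ← pow_add]
    congr 1
    ring
  omega

theorem not_BadB_iff (q i c : ℕ) (L : List ℕ) (j a : ℕ) : ¬ BadB q i c L j a ↔
    2 ^ sf i * |∑ x ∈ range (blen i j), (-1 : ℤ) ^ cb q (kf i) (Mf i) c (bst i j a + x) *
      (-1 : ℤ) ^ L.getD (bst i j a + x) 0| ≤ 2 * (blen i j : ℤ) := by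
  unfold BadB
  rw [not_lt, agr_sum, ← natAbs_sub']
  rw [← Nat.cast_le (α := ℤ)]
  push_cast
  rfl

theorem card_BadB {q i : ℕ} (hq : q.Prime) (hM : 2 ^ Mf i ≤ q) (hqM : q ≤ 2 ^ (Mf i + 1))
    (L : List ℕ) (j a : ℕ) :
    ((range (2 ^ kf i)).filter (fun c => BadB q i c L j a)).card ≤ 4 ^ sf i := by
  refine card_bad hq hM hqM (hk_ineq i) (bw i j * (2 ^ sf i + a)) (bw i j)
    (by unfold bw; positivity) (fun x => (-1 : ℤ) ^ L.getD (bst i j a + x) 0)
    (fun n => sq_sign _) _ ?_ ?_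
  · intro c hc
    exact mem_range.1 (mem_filter.1 hc).1
  · intro c hc
    have h := (mem_filter.1 hc).2
    have h2 := mt (not_BadB_iff q i c L j a).2 (not_not.2 h)
    rw [← blen_eq, ← bst_eq]
    exact (not_le.1 h2).le

theorem length_badList {q i : ℕ} (hq : q.Prime) (hM : 2 ^ Mf i ≤ q) (hqM : q ≤ 2 ^ (Mf i + 1))
    (L : List ℕ) : (badList q i L).length ≤ 2 ^ i * 2 ^ i := by
  unfold badList
  split_ifs with hi
  · have h1 : ((List.range (2 ^ kf i)).filter (fun c => BadW q i c L)).length =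
        ((range (2 ^ kf i)).filter (fun c => BadW q i c L)).card := by
      rw [Finset.card_def, Finset.filter_val, Finset.range_val]
      simp only [Multiset.range, Multiset.filter_coe, Multiset.coe_card]
    rw [h1]
    have h2 : ((range (2 ^ kf i)).filter (fun c => BadW q i c L)) ⊆
        (range (2 ^ (i + 4))).biUnion (fun j => (range (2 ^ sf i)).biUnion (fun a =>
          (range (2 ^ kf i)).filter (fun c => BadB q i c L j a))) := by
      intro c hc
      rw [mem_filter] at hc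
      obtain ⟨hc1, j, hj, a, ha, hb⟩ := hc
      rw [mem_biUnion]
      refine ⟨j, mem_range.2 hj, ?_⟩
      rw [mem_biUnion]
      exact ⟨a, mem_range.2 ha, mem_filter.2 ⟨hc1, hb⟩⟩
    refine (card_le_card h2).trans ?_
    have h3 : ∀ j ∈ range (2 ^ (i + 4)), ((range (2 ^ sf i)).biUnion (fun a =>
          (range (2 ^ kf i)).filter (fun c => BadB q i c L j a))).card ≤ 2 ^ sf i * 4 ^ sf i := by
      intro j _
      have := card_biUnion_le_card_mul (range (2 ^ sf i)) (fun a =>
          (range (2 ^ kf i)).filter (fun c => BadB q i c L j a)) (4 ^ sf i)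
          (fun a _ => card_BadB hq hM hqM L j a)
      rwa [card_range] at this
    have h4 := card_biUnion_le_card_mul (range (2 ^ (i + 4))) (fun j =>
      (range (2 ^ sf i)).biUnion (fun a =>
          (range (2 ^ kf i)).filter (fun c => BadB q i c L j a))) _ h3
    rw [card_range] at h4
    refine h4.trans ?_
    rw [show (4 : ℕ) ^ sf i = 2 ^ (2 * sf i) by rw [pow_mul]; norm_num, ← pow_add, ← pow_add,
      ← pow_add]
    apply Nat.pow_le_pow_right (by norm_num)
    have := (sf_le i).2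
    omega
  · simp

/-! ### The primes -/

theorem exists_q (i : ℕ) : ∃ q, 2 ^ Mf i ≤ q ∧ 2 ≤ q ∧ ∀ d < q, d < 2 ∨ q % d ≠ 0 := by
  obtain ⟨p, hp, hle⟩ := Nat.exists_infinite_primes (2 ^ Mf i)
  refine ⟨p, hp, hle.two_le, ?_⟩
  intro d hd
  by_contra hcon
  push Not at hcon
  have := (Nat.dvd_prime hle).1 (Nat.dvd_of_mod_eq_zero hcon.2)
  omega

/-- the prime of window `i` -/
def qf (i : ℕ) : ℕ := Nat.find (exists_q i)

theorem qf_prime (i : ℕ) : (qf i).Prime := by
  have h := Nat.find_spec (exists_q i)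
  rw [Nat.prime_def_lt]
  refine ⟨h.2.1, ?_⟩
  intro d hd hdvd
  rcases h.2.2 d hd with h1 | h1
  · have : d ≠ 0 := by
      rintro rfl
      have := zero_dvd_iff.1 hdvd
      have := h.2.1
      omega
    omega
  · exact absurd (Nat.mod_eq_zero_of_dvd hdvd) h1

theorem le_qf (i : ℕ) : 2 ^ Mf i ≤ qf i := (Nat.find_spec (exists_q i)).1

theorem qf_le (i : ℕ) : qf i ≤ 2 ^ (Mf i + 1) := by
  obtain ⟨p, hp, hlt, hle⟩ := Nat.exists_prime_lt_and_le_two_mul (2 ^ Mf i) (by positivity)
  have : qf i ≤ p := by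
    apply Nat.find_min'
    refine ⟨hlt.le, hp.two_le, ?_⟩
    intro d hd
    by_contra hcon
    push Not at hcon
    have := (Nat.dvd_prime hp).1 (Nat.dvd_of_mod_eq_zero hcon.2)
    omega
  rw [pow_succ]
  omega

theorem computable_qf : Computable qf := by
  refine computable_find ?_ exists_q
  have h : PrimrecRel (fun i q : ℕ => 2 ^ Mf i ≤ q ∧ 2 ≤ q ∧ ∀ d < q, d < 2 ∨ q % d ≠ 0) := by
    refine PrimrecPred.and ?_ (PrimrecPred.and ?_ ?_)
    · exact Primrec.nat_le.comp (primrec_2pow (primrec_Mf.comp Primrec.fst)) Primrec.snd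
    · exact Primrec.nat_le.comp (Primrec.const 2) Primrec.snd
    · have hR : PrimrecRel (fun d q : ℕ => d < 2 ∨ q % d ≠ 0) := by
        refine PrimrecPred.or (Primrec.nat_lt.comp Primrec.fst (Primrec.const 2))
          (PrimrecPred.not ?_)
        exact Primrec.eq.comp (Primrec.nat_mod.comp Primrec.snd Primrec.fst) (Primrec.const 0)
      exact hR.forall_lt.comp Primrec.snd Primrec.snd
  exact h.decide.to_comp

end Q206.Gam
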